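import Pool.Agent.H21.RDP.Rdp
import Pool.Agent.H92.D2.Tub

/-!
# A polynomial of the line which is small at most times has small coefficients

`coef_bd`: values at the nodes bound the coefficients. `tm_count`: few times `t / N₀` at which a
polynomial with one large coefficient is small. `coef_small`: if `R (L ω)` is small at `T ω / N₀` for
most `ω` and the time is nearly full given the line, then all coefficients of `R (L ω)` are small for
most `ω`.
-/

set_option autoImplicit false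

namespace Pool.V1E

open Finset Real
open Pool.Agent.H49.Ent Pool.Agent.H32.Dense Pool.STK Pool.D2A Pool.D2Con
open Pool.BFL (Pb)
open Pool.D2G30

/-- Values at the nodes bound the coefficients. -/
theorem coef_bd {K : ℕ} (hK : 1 ≤ K) : ∃ C : ℝ, 1 ≤ C ∧ ∀ P : Polynomial ℝ, P.natDegree ≤ K →
    ∀ B : ℝ, (∀ j : Fin (K + 1), |P.eval (((j : ℕ) : ℝ) / K)| ≤ B) → ∀ n, |P.coeff n| ≤ C * B := by
  classical
  have hK0 : (K : ℝ) ≠ 0 := by
    have : (1 : ℝ) ≤ K := by exact_mod_cast hK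
    linarith
  have hinj : Set.InjOn (fun i : Fin (K + 1) => ((i : ℕ) : ℝ) / K)
      (univ : Finset (Fin (K + 1))) := by
    intro a _ b _ h
    have h1 : ((a : ℕ) : ℝ) / K = ((b : ℕ) : ℝ) / K := h
    have h2 : ((a : ℕ) : ℝ) = (b : ℕ) := by
      field_simp at h1
      exact h1
    exact Fin.ext (by exact_mod_cast h2)
  obtain ⟨bs, hbs⟩ : ∃ bs : Fin (K + 1) → Polynomial ℝ, bs = fun j =>
    Lagrange.basis (univ : Finset (Fin (K + 1))) (fun i : Fin (K + 1) => ((i : ℕ) : ℝ) / K) j :=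
    ⟨_, rfl⟩
  obtain ⟨S, hS⟩ : ∃ S : ℝ, S = ∑ n ∈ range (K + 1), ∑ j, |(bs j).coeff n| := ⟨_, rfl⟩
  have hS0 : 0 ≤ S := by
    rw [hS]
    exact sum_nonneg fun n _ => sum_nonneg fun j _ => abs_nonneg _
  refine ⟨1 + S, by linarith, fun P hP B hB n => ?_⟩
  have hB0 : 0 ≤ B := (abs_nonneg _).trans (hB 0)
  by_cases hn : n ≤ K
  · have hdeg : P.degree < ((univ : Finset (Fin (K + 1))).card : WithBot ℕ) := by
      rw [Finset.card_univ, Fintype.card_fin]
      refine lt_of_le_of_lt Polynomial.degree_le_natDegree ?_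
      exact_mod_cast Nat.lt_succ_of_le hP
    have key := Lagrange.eq_interpolate hinj hdeg
    have h1 := congrArg (fun p : Polynomial ℝ => p.coeff n) key
    simp only [Lagrange.interpolate_apply, Polynomial.finsetSum_coeff,
      Polynomial.coeff_C_mul] at h1
    rw [h1]
    refine (Finset.abs_sum_le_sum_abs _ _).trans ?_
    have h2 : ∀ j ∈ (univ : Finset (Fin (K + 1))),
        |Polynomial.eval (((j : ℕ) : ℝ) / K) P * (Lagrange.basis (univ : Finset (Fin (K + 1)))
          (fun i : Fin (K + 1) => ((i : ℕ) : ℝ) / K) j).coeff n| ≤ |(bs j).coeff n| * B := by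
      intro j _
      rw [abs_mul, mul_comm, hbs]
      exact mul_le_mul_of_nonneg_left (hB j) (abs_nonneg _)
    refine (Finset.sum_le_sum h2).trans ?_
    rw [← Finset.sum_mul]
    refine mul_le_mul_of_nonneg_right ?_ hB0
    have h3 : ∑ j, |(bs j).coeff n| ≤ S := by
      rw [hS]
      exact Finset.single_le_sum (f := fun n => ∑ j, |(bs j).coeff n|)
        (fun n _ => sum_nonneg fun j _ => abs_nonneg _) (mem_range.2 (Nat.lt_succ_of_le hn))
    linarith
  · rw [Polynomial.coeff_eq_zero_of_natDegree_lt (by omega), abs_zero]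
    positivity

/-- **Few times.** -/
theorem tm_count {K : ℕ} {C : ℝ} (hC : ∀ P : Polynomial ℝ, P.natDegree ≤ K →
      ∀ B : ℝ, (∀ j : Fin (K + 1), |P.eval (((j : ℕ) : ℝ) / K)| ≤ B) → ∀ n, |P.coeff n| ≤ C * B)
    (hK : 1 ≤ K) {N₀ t : ℕ} (hN : 2 ^ t ≤ N₀) (P : Polynomial ℝ) (hP : P.natDegree ≤ K)
    {lam A : ℝ} {n : ℕ} (hn : A < |P.coeff n|) (hA : C * ((K + 1) * (lam * (2 ^ (t + 1)) ^ K)) ≤ A) :
    ((range N₀).filter fun x : ℕ => |P.eval ((x : ℝ) / N₀)| ≤ lam).card * 2 ^ t ≤ K * N₀ := by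
  classical
  obtain ⟨Z, hZ⟩ : ∃ Z, Z = (range N₀).filter fun x : ℕ => |P.eval ((x : ℝ) / N₀)| ≤ lam :=
    ⟨_, rfl⟩
  rw [← hZ]
  by_contra hcon
  rw [not_le] at hcon
  have h2t : 0 < 2 ^ t := by positivity
  have hN0 : 0 < N₀ := lt_of_lt_of_le h2t hN
  have hN0' : (0 : ℝ) < N₀ := by exact_mod_cast hN0
  obtain ⟨s, hs⟩ : ∃ s, s = N₀ / 2 ^ t := ⟨_, rfl⟩
  have hs1 : s * 2 ^ t ≤ N₀ := by rw [hs]; exact Nat.div_mul_le_self _ _
  have hs2 : N₀ < (s + 1) * 2 ^ t := by
    rw [hs]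
    have := Nat.lt_mul_div_succ N₀ h2t
    rw [mul_comm] at this
    exact this
  have hs0 : 1 ≤ s := by
    rw [hs]
    exact (Nat.one_le_div_iff h2t).2 hN
  have hcard : K * s < Z.card := by
    have h1 : K * s * 2 ^ t ≤ K * N₀ := by
      rw [mul_assoc]
      exact Nat.mul_le_mul_left _ hs1
    exact lt_of_mul_lt_mul_right (lt_of_le_of_lt h1 hcon) (Nat.zero_le _)
  obtain ⟨u, hu, hus⟩ := sep_pts Z hcard
  have hZm : ∀ i, u i < N₀ ∧ |P.eval ((u i : ℝ) / N₀)| ≤ lam := by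
    intro i
    have h1 := hu i
    rw [hZ, Finset.mem_filter, Finset.mem_range] at h1
    exact h1
  have hlt : ∀ i i' : Fin (K + 1), i < i' →
      1 / 2 ^ (t + 1) ≤ (u i' : ℝ) / N₀ - (u i : ℝ) / N₀ := by
    intro i i' hii
    have h4 : (u i : ℝ) + s ≤ u i' := by exact_mod_cast hus i i' hii
    have h5 : (N₀ : ℝ) ≤ s * 2 ^ (t + 1) := by
      have h6 : N₀ ≤ s * 2 ^ (t + 1) := by
        calc N₀ ≤ (s + 1) * 2 ^ t := hs2.le
          _ ≤ (s + s) * 2 ^ t := Nat.mul_le_mul_right _ (by omega)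
          _ = s * 2 ^ (t + 1) := by ring
      exact_mod_cast h6
    rw [← sub_div, div_le_div_iff₀ (by positivity) hN0', one_mul]
    refine h5.trans (mul_le_mul_of_nonneg_right ?_ (by positivity))
    linarith
  have hy01 : ∀ i, 0 ≤ (u i : ℝ) / N₀ ∧ (u i : ℝ) / N₀ ≤ 1 := by
    intro i
    refine ⟨by positivity, ?_⟩
    rw [div_le_one hN0']
    exact_mod_cast (hZm i).1.le
  have key : ∀ j : Fin (K + 1), |P.eval (((j : ℕ) : ℝ) / K)| ≤
      (K + 1) * (lam * (2 ^ (t + 1)) ^ K) := by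
    intro j
    have hK0 : (0 : ℝ) < K := by
      have : (1 : ℝ) ≤ K := by exact_mod_cast hK
      linarith
    have hj01 : 0 ≤ ((j : ℕ) : ℝ) / K ∧ ((j : ℕ) : ℝ) / K ≤ 1 := by
      constructor
      · positivity
      · rw [div_le_one hK0]
        exact_mod_cast Nat.lt_succ_iff.1 j.2
    have h1 := sep_small P hP (fun i => (u i : ℝ) / N₀) (δ := 1 / 2 ^ (t + 1)) (B := lam)
      (by positivity) (fun i i' hii => by
      rcases lt_or_gt_of_ne hii with h | h
      · rw [abs_sub_comm]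
        exact (hlt i i' h).trans (le_abs_self _)
      · exact (hlt i' i h).trans (le_abs_self _)) (fun i => (hZm i).2)
      (x := ((j : ℕ) : ℝ) / K) (fun i => by
      rw [abs_le]
      constructor <;> linarith [(hy01 i).1, (hy01 i).2, hj01.1, hj01.2])
    rw [one_div_one_div] at h1
    exact h1
  have h2 := hC P hP _ key n
  linarith

/-- The count, with parameters. -/
theorem coef_core {K : ℕ} {C : ℝ} (hC : ∀ P : Polynomial ℝ, P.natDegree ≤ K →
      ∀ B : ℝ, (∀ j : Fin (K + 1), |P.eval (((j : ℕ) : ℝ) / K)| ≤ B) → ∀ n, |P.coeff n| ≤ C * B)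
    (hK : 1 ≤ K) {N₀ t : ℕ} (hN : 2 ^ t ≤ N₀) {Ω Λ : Type} [Fintype Ω] {q : Ω → ℝ} {L : Ω → Λ}
    {T : Ω → ℕ} (hq : IsLaw q) (hT : ∀ ω, 0 < q ω → T ω < N₀) {e : ℝ}
    (hfull : Real.log N₀ - e ≤ CH q T L) (R : Λ → Polynomial ℝ) (hR : ∀ l, (R l).natDegree ≤ K)
    {lam A : ℝ} (hA : C * ((K + 1) * (lam * (2 ^ (t + 1)) ^ K)) ≤ A) :
    Pb q (fun ω => |(R (L ω)).eval (uu N₀ T ω)| ≤ lam ∧ ∃ j, A < |(R (L ω)).coeff j|) *
      (t * Real.log 2 - Real.log K) ≤ e + Real.log 2 := by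
  classical
  have h0 := hq.nonneg
  have l2 : 0 < Real.log 2 := Real.log_pos (by norm_num)
  have hK1 : (1 : ℝ) ≤ K := by exact_mod_cast hK
  have h2t : 0 < 2 ^ t := by positivity
  have hN0 : 0 < N₀ := lt_of_lt_of_le h2t hN
  have hN0' : (0 : ℝ) < N₀ := by exact_mod_cast hN0
  obtain ⟨Bd, hBd⟩ : ∃ Bd : Ω → Prop, Bd = fun ω => |(R (L ω)).eval (uu N₀ T ω)| ≤ lam ∧
    ∃ j, A < |(R (L ω)).coeff j| := ⟨_, rfl⟩
  rw [← hBd]
  obtain ⟨b, hb⟩ : ∃ b : Ω → Bool, b = fun ω => decide (Bd ω) := ⟨_, rfl⟩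
  obtain ⟨S, hS⟩ : ∃ S : Bool × Λ → Finset ℕ, S = fun y => if y.1 = true then
    (range N₀).filter fun x : ℕ => |(R y.2).eval ((x : ℝ) / N₀)| ≤ lam else range N₀ := ⟨_, rfl⟩
  have c1 : CH q b L ≤ Real.log 2 := by
    have h2 := CH_le_card h0 hq.sum_one b L (fun _ => (Finset.univ : Finset Bool))
      (fun ω _ => Finset.mem_univ _)
    rw [Ex_const hq.sum_one, Finset.card_univ, Fintype.card_bool] at h2
    push_cast at h2
    exact h2
  have c2 : CH q T (fun ω => (b ω, L ω)) ≤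
      Real.log N₀ - Pb q Bd * (t * Real.log 2 - Real.log K) := by
    have h1 := CH_le_card h0 hq.sum_one T (fun ω => (b ω, L ω)) S (by
      intro ω hω
      have hm : T ω ∈ range N₀ := Finset.mem_range.2 (hT ω hω)
      rw [hS]
      show T ω ∈ (if b ω = true then _ else _)
      by_cases h : b ω = true
      · rw [if_pos h, Finset.mem_filter]
        refine ⟨hm, ?_⟩
        have hbd : Bd ω := by
          rw [hb] at h
          exact of_decide_eq_true h
        rw [hBd] at hbd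
        exact hbd.1
      · rw [if_neg h]
        exact hm)
    refine h1.trans ?_
    have h2 : ∀ ω, Real.log ((S (b ω, L ω)).card : ℝ) ≤ Real.log N₀ -
        (if Bd ω then (1 : ℝ) else 0) * (t * Real.log 2 - Real.log K) := by
      intro ω
      by_cases h : Bd ω
      · rw [if_pos h, one_mul]
        have hbt : b ω = true := by
          rw [hb]
          exact decide_eq_true h
        have hSc : S (b ω, L ω) =
            (range N₀).filter fun x : ℕ => |(R (L ω)).eval ((x : ℝ) / N₀)| ≤ lam := by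
          rw [hS]
          show (if b ω = true then _ else _) = _
          rw [if_pos hbt]
        rw [hBd] at h
        obtain ⟨-, j, hj⟩ := h
        have h4 := tm_count hC hK hN (R (L ω)) (hR _) hj hA
        rw [← hSc] at h4
        have hd4 : (((S (b ω, L ω)).card : ℝ)) * 2 ^ t ≤ K * N₀ := by exact_mod_cast h4
        have hRl : Real.log N₀ - (t * Real.log 2 - Real.log K) =
            Real.log (K * N₀) - t * Real.log 2 := by
          rw [Real.log_mul (by positivity) (by positivity)]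
          ring
        rw [hRl]
        rcases Nat.eq_zero_or_pos (S (b ω, L ω)).card with h5 | h5
        · rw [h5, Nat.cast_zero, Real.log_zero]
          have h6 : (2 : ℝ) ^ t ≤ K * N₀ := by
            have h7 : (2 : ℝ) ^ t ≤ N₀ := by exact_mod_cast hN
            nlinarith
          have h7 := Real.log_le_log (by positivity) h6
          rw [Real.log_pow] at h7
          linarith
        · have h6 : (0 : ℝ) < (S (b ω, L ω)).card := by exact_mod_cast h5
          have h2t' : (0 : ℝ) < 2 ^ t := by positivity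
          have h7 := Real.log_le_log (mul_pos h6 h2t') hd4
          rw [Real.log_mul h6.ne' h2t'.ne', Real.log_pow] at h7
          linarith
      · rw [if_neg h, zero_mul, sub_zero]
        have hbt : ¬ b ω = true := by
          rw [hb]
          exact fun hh => h (of_decide_eq_true hh)
        have hSc : S (b ω, L ω) = range N₀ := by
          rw [hS]
          show (if b ω = true then _ else _) = _
          rw [if_neg hbt]
        rw [hSc, Finset.card_range]
    refine (Ex_mono h0 fun ω _ => h2 ω).trans (le_of_eq ?_)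
    rw [Ex_sub, Ex_const hq.sum_one, Ex_ite]
  have c3 := CH_le_add h0 T b L
  linarith

/-- **A polynomial of the line which is small at most times has small coefficients.** -/
theorem coef_small (D : ℕ) {eps : ℝ} (heps : 0 < eps) : ∃ dl : ℝ, 0 < dl ∧ ∃ Q₀ : ℕ,
    ∀ {Q N₀ : ℕ}, Q₀ ≤ Q → ∀ {Ω Λ : Type} [Fintype Ω] {q : Ω → ℝ} {L : Ω → Λ} {T : Ω → ℕ},
    IsLaw q → 2 ^ Q ≤ N₀ → (∀ ω, 0 < q ω → T ω < N₀) →
    Real.log N₀ - dl * Q ≤ CH q T L →
    ∀ R : Λ → Polynomial ℝ, (∀ l, (R l).natDegree ≤ D) → ∀ {lam : ℝ}, 0 < lam →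
    Pb q (fun ω => lam < |(R (L ω)).eval (uu N₀ T ω)|) ≤ dl →
    Pb q (fun ω => ∃ j, j ≤ D ∧ 2 ^ (eps * Q) * lam < |(R (L ω)).coeff j|) ≤ eps := by
  obtain ⟨K, hKD⟩ : ∃ K, K = D + 1 := ⟨_, rfl⟩
  have hK : 1 ≤ K := by omega
  have hK1 : (1 : ℝ) ≤ K := by exact_mod_cast hK
  obtain ⟨C, hC1, hC⟩ := coef_bd hK
  have l2 : 0 < Real.log 2 := Real.log_pos (by norm_num)
  -- digits of the constant
  obtain ⟨c, hc⟩ : ∃ c : ℕ, C * (K + 1) ≤ 2 ^ c := by
    obtain ⟨c, hc⟩ := pow_unbounded_of_one_lt (C * (K + 1)) (by norm_num : (1 : ℝ) < 2)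
    exact ⟨c, hc.le⟩
  -- `t * K + K + c ≤ eps' * Q`, `t ≥ eps' * Q / (2 K)`
  obtain ⟨ep, hep⟩ : ∃ ep : ℝ, ep = min eps 1 := ⟨_, rfl⟩
  have hep0 : 0 < ep := by rw [hep]; exact lt_min heps one_pos
  have hep1 : ep ≤ 1 := by rw [hep]; exact min_le_right _ _
  have hepe : ep ≤ eps := by rw [hep]; exact min_le_left _ _
  obtain ⟨dl, hdl⟩ : ∃ dl : ℝ, dl = ep * (ep * Real.log 2 / (16 * K)) := ⟨_, rfl⟩
  have hl2 : Real.log 2 < 1 := by
    have := Real.log_two_lt_d9
    linarith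
  have hdl0 : 0 < dl := by rw [hdl]; positivity
  have hdl1 : dl ≤ ep / 2 := by
    rw [hdl]
    have h1 : ep * Real.log 2 / (16 * K) ≤ 1 / 2 := by
      rw [div_le_div_iff₀ (by positivity) (by norm_num)]
      nlinarith
    calc ep * (ep * Real.log 2 / (16 * K)) ≤ ep * (1 / 2) := mul_le_mul_of_nonneg_left h1 hep0.le
      _ = ep / 2 := by ring
  obtain ⟨Q₀, hQ₀⟩ : ∃ Q₀ : ℕ, (2 * (2 * K + c) + 16 * K * (Real.log K + 1) / Real.log 2 +
      16 * K / ep) / ep ≤ Q₀ := ⟨_, Nat.le_ceil _⟩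
  refine ⟨dl, hdl0, Q₀, fun {Q N₀} hQ {Ω Λ} _ {q L T} hq hN hT hfull R hR {lam} hlam hgood => ?_⟩
  have h0 := hq.nonneg
  have hQr : (Q₀ : ℝ) ≤ Q := by exact_mod_cast hQ
  have hlogK : 0 ≤ Real.log K := Real.log_nonneg hK1
  have hbig : 2 * (2 * K + c) + 16 * K * (Real.log K + 1) / Real.log 2 + 16 * K / ep ≤ ep * Q := by
    have h1 := hQ₀.trans hQr
    rw [div_le_iff₀ hep0] at h1
    linarith
  have p1 : 0 ≤ 16 * K * (Real.log K + 1) / Real.log 2 := by positivity
  have p2 : 0 ≤ 16 * (K : ℝ) / ep := by positivity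
  have hc0 : (0 : ℝ) ≤ c := Nat.cast_nonneg c
  obtain ⟨t, ht⟩ : ∃ t : ℕ, t = ⌊(ep * Q - (K + c)) / K⌋₊ := ⟨_, rfl⟩
  have hx0 : 0 ≤ (ep * Q - (K + c)) / K := div_nonneg (by linarith) (by linarith)
  have ht1 : (t : ℝ) * K ≤ ep * Q - (K + c) := by
    have h1 : (t : ℝ) ≤ (ep * Q - (K + c)) / K := by
      rw [ht]
      exact Nat.floor_le hx0
    rwa [le_div_iff₀ (by linarith)] at h1
  have ht2 : ep * Q / (2 * K) ≤ t := by
    have h1 : (ep * Q - (K + c)) / K < t + 1 := by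
      rw [ht]
      exact Nat.lt_floor_add_one _
    rw [div_lt_iff₀ (by linarith)] at h1
    rw [div_le_iff₀ (by positivity)]
    nlinarith
  have htN : 2 ^ t ≤ N₀ := by
    refine le_trans (Nat.pow_le_pow_right (by norm_num) ?_) hN
    have h1 : (t : ℝ) ≤ Q := by
      have h2 : (t : ℝ) * 1 ≤ t * K := mul_le_mul_of_nonneg_left hK1 (Nat.cast_nonneg t)
      have h3 : ep * Q ≤ 1 * Q := mul_le_mul_of_nonneg_right hep1 (Nat.cast_nonneg Q)
      linarith
    exact_mod_cast h1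
  have hA : C * ((K + 1) * (lam * (2 ^ (t + 1)) ^ K)) ≤ 2 ^ (eps * Q) * lam := by
    have h1 : C * ((K + 1) * (lam * (2 ^ (t + 1)) ^ K)) =
        C * (K + 1) * ((2 : ℝ) ^ ((t + 1) * K)) * lam := by
      rw [← pow_mul]
      ring
    rw [h1]
    refine mul_le_mul_of_nonneg_right ?_ hlam.le
    calc C * (K + 1) * (2 : ℝ) ^ ((t + 1) * K) ≤ 2 ^ c * 2 ^ ((t + 1) * K) :=
          mul_le_mul_of_nonneg_right hc (by positivity)
      _ = (2 : ℝ) ^ (((c + (t + 1) * K : ℕ) : ℝ)) := by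
          rw [Real.rpow_natCast, pow_add]
      _ ≤ 2 ^ (eps * Q) := by
          refine Real.rpow_le_rpow_of_exponent_le (by norm_num) ?_
          push_cast
          have h3 : ep * Q ≤ eps * Q := mul_le_mul_of_nonneg_right hepe (Nat.cast_nonneg Q)
          linarith
  have hR' : ∀ l, (R l).natDegree ≤ K := fun l => (hR l).trans (by omega)
  have key := coef_core hC hK htN hq hT hfull R hR' (lam := lam) hA
  obtain ⟨pb, hpb⟩ : ∃ pb, pb = Pb q (fun ω => |(R (L ω)).eval (uu N₀ T ω)| ≤ lam ∧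
    ∃ j, 2 ^ (eps * Q) * lam < |(R (L ω)).coeff j|) := ⟨_, rfl⟩
  rw [← hpb] at key
  have hpb0 : 0 ≤ pb := by rw [hpb]; exact Pb_nn h0 _
  have hpb1 : pb ≤ ep / 2 := by
    by_contra hcon
    rw [not_le] at hcon
    have h1 : ep * Q * Real.log 2 / (4 * K) ≤ t * Real.log 2 - Real.log K := by
      have h2 : ep * Q / (2 * K) * Real.log 2 ≤ t * Real.log 2 :=
        mul_le_mul_of_nonneg_right ht2 l2.le
      have h3 : Real.log K ≤ ep * Q * Real.log 2 / (4 * K) := by
        rw [le_div_iff₀ (by positivity)]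
        have h4 : 16 * K * (Real.log K + 1) / Real.log 2 ≤ ep * Q := by linarith
        rw [div_le_iff₀ l2] at h4
        nlinarith
      have h4 : ep * Q / (2 * K) * Real.log 2 = 2 * (ep * Q * Real.log 2 / (4 * K)) := by
        field_simp
        ring
      linarith
    have h5 : 0 < ep * Q * Real.log 2 / (4 * K) := by
      have : 0 < ep * Q := by
        have h6 : 0 < 2 * (2 * (K : ℝ) + c) := by positivity
        linarith
      positivity
    have h6 : ep / 2 * (ep * Q * Real.log 2 / (4 * K)) < dl * Q + Real.log 2 := by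
      calc ep / 2 * (ep * Q * Real.log 2 / (4 * K)) < pb * (ep * Q * Real.log 2 / (4 * K)) :=
            mul_lt_mul_of_pos_right hcon h5
        _ ≤ pb * (t * Real.log 2 - Real.log K) := mul_le_mul_of_nonneg_left h1 hpb0
        _ ≤ _ := key
    have h7 : dl * Q = ep / 2 * (ep * Q * Real.log 2 / (4 * K)) / 2 := by
      rw [hdl]
      field_simp
      ring
    have h8 : ep / 2 * (ep * Q * Real.log 2 / (4 * K)) / 2 = ep * (ep * Q) * Real.log 2 / (16 * K) := by
      field_simp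
      ring
    have h9 : Real.log 2 ≤ ep * (ep * Q) * Real.log 2 / (16 * K) := by
      rw [le_div_iff₀ (by positivity)]
      have h10 : 16 * (K : ℝ) / ep ≤ ep * Q := by linarith
      rw [div_le_iff₀ hep0] at h10
      nlinarith
    linarith
  have hun : Pb q (fun ω => ∃ j, j ≤ D ∧ 2 ^ (eps * Q) * lam < |(R (L ω)).coeff j|) ≤
      pb + Pb q (fun ω => lam < |(R (L ω)).eval (uu N₀ T ω)|) := by
    rw [hpb]
    unfold Pb
    rw [← Finset.sum_add_distrib]
    refine Finset.sum_le_sum fun ω _ => ?_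
    by_cases h1 : ∃ j, j ≤ D ∧ 2 ^ (eps * Q) * lam < |(R (L ω)).coeff j|
    · rw [if_pos h1]
      by_cases h2 : lam < |(R (L ω)).eval (uu N₀ T ω)|
      · rw [if_pos h2]
        split_ifs
        · linarith [h0 ω]
        · linarith
      · rw [if_neg h2, if_pos ⟨not_lt.1 h2, h1.imp fun j hj => hj.2⟩]
        linarith
    · rw [if_neg h1]
      split_ifs <;> linarith [h0 ω]
  linarith

end Pool.V1E
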