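import Pool.Agent.H21.RDP.Cnt
import Pool.Agent.H66.D2.Rdl

/-!
# A full variable kills a polynomial

If the digits `ξ` are nearly full given `W` and the cells of the values `G β` of a polynomial at the
nodes have few bits given `W`, and the polynomial is small at `ξ / 2 ^ k` on an event, then all values
are small on most of the event.
-/

set_option autoImplicit false

namespace Pool.D2G30

open Finset Real
open Pool.Agent.H49.Ent Pool.Agent.H32.Dense Pool.STK
open Pool.BFL (Pb)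

variable {Ω τ : Type} [Fintype Ω]

theorem Pb_nn {q : Ω → ℝ} (h0 : ∀ ω, 0 ≤ q ω) (B : Ω → Prop) : 0 ≤ Pb q B := by
  unfold Pb
  refine Finset.sum_nonneg fun ω _ => ?_
  split_ifs
  exacts [h0 ω, le_rfl]

open Classical in
theorem Ex_ite {q : Ω → ℝ} (B : Ω → Prop) (c : ℝ) :
    Ex q (fun ω => (if B ω then (1 : ℝ) else 0) * c) = Pb q B * c := by
  unfold Ex Pb
  rw [Finset.sum_mul]
  refine Finset.sum_congr rfl fun ω _ => ?_
  by_cases hb : B ω
  · simp only [if_pos hb]
    ring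
  · simp only [if_neg hb]
    ring

/-- **A full variable kills a polynomial.** -/
theorem read_poly {q : Ω → ℝ} (hq : IsLaw q) (W : Ω → τ) {K d k t v : ℕ} (hK : 1 ≤ K)
    (hd : 1 ≤ d) (ht : t ≤ k) (ξ : Ω → Fin d → ℕ) (G : Ω → (Fin d → Fin (K + 1)) → ℝ)
    (Ev : Ω → Prop) {lam e e' : ℝ} (hlam : 0 ≤ lam)
    (hξ : ∀ ω, 0 < q ω → ∀ i, ξ ω i < 2 ^ k)
    (hfull : d * (k * Real.log 2) - e ≤ CH q ξ W)
    (hcell : CH q (fun ω β => ⌊G ω β⌋) W ≤ e')
    (hrel : ∀ ω, 0 < q ω → Ev ω → |∑ β, ell K β (fun i => (ξ ω i : ℝ) / 2 ^ k) * G ω β| ≤ lam)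
    (hv : ((K + 1) * 2 ^ (t * K)) ^ d * (lam + (K + 1) ^ d * lgC K ^ d) < (2 : ℝ) ^ v - 1) :
    Pb q (fun ω => Ev ω ∧ ∃ β, 2 ^ v ≤ |G ω β|) * (t * Real.log 2 - Real.log (d * K)) ≤
      e + e' + Real.log 2 := by
  classical
  have h0 := hq.nonneg
  have hC := one_le_lgC K
  have l2 : 0 < Real.log 2 := Real.log_pos (by norm_num)
  have hK1 : (1 : ℝ) ≤ K := by exact_mod_cast hK
  have hd1 : (1 : ℝ) ≤ d := by exact_mod_cast hd
  have hdK : (1 : ℝ) ≤ d * K := by nlinarith
  obtain ⟨Bd, hBd⟩ : ∃ Bd : Ω → Prop, Bd = fun ω => Ev ω ∧ ∃ β, 2 ^ v ≤ |G ω β| := ⟨_, rfl⟩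
  rw [← hBd]
  obtain ⟨B, hB⟩ : ∃ B : ℝ, B = lam + (K + 1) ^ d * lgC K ^ d := ⟨_, rfl⟩
  have hB0 : 0 ≤ B := by rw [hB]; positivity
  rw [← hB] at hv
  obtain ⟨b, hb⟩ : ∃ b : Ω → Bool, b = fun ω => decide (Bd ω) := ⟨_, rfl⟩
  obtain ⟨c, hc⟩ : ∃ c : Ω → (Fin d → Fin (K + 1)) → ℤ, c = fun ω β => ⌊G ω β⌋ := ⟨_, rfl⟩
  rw [← hc] at hcell
  obtain ⟨T, hT⟩ : ∃ T, T = Fintype.piFinset fun _ : Fin d => Finset.range (2 ^ k) := ⟨_, rfl⟩
  have hTc : T.card = 2 ^ (k * d) := by
    rw [hT, Fintype.card_piFinset]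
    simp only [Finset.card_range, Finset.prod_const, Finset.card_univ, Fintype.card_fin]
    rw [← pow_mul]
  obtain ⟨S, hS⟩ : ∃ S : (Bool × ((Fin d → Fin (K + 1)) → ℤ)) × τ → Finset (Fin d → ℕ),
      S = fun y => if y.1.1 = true then T.filter fun ξ : Fin d → ℕ =>
        |∑ β, ell K β (fun i => (ξ i : ℝ) / 2 ^ k) * (y.1.2 β : ℝ)| ≤ B else T := ⟨_, rfl⟩
  have hx01 : ∀ ω, 0 < q ω → ∀ i, 0 ≤ (ξ ω i : ℝ) / 2 ^ k ∧ (ξ ω i : ℝ) / 2 ^ k ≤ 1 := by
    intro ω hω i
    refine ⟨by positivity, ?_⟩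
    rw [div_le_one (by positivity)]
    exact_mod_cast (hξ ω hω i).le
  -- the label
  have c1 : CH q (fun ω => (b ω, c ω)) W ≤ Real.log 2 + e' := by
    have h1 := CH_subadd h0 b c W
    have h2 := CH_le_card h0 hq.sum_one b W (fun _ => (Finset.univ : Finset Bool))
      (fun ω _ => Finset.mem_univ _)
    rw [Ex_const hq.sum_one, Finset.card_univ, Fintype.card_bool] at h2
    push_cast at h2
    linarith
  -- the count
  have c2 : CH q ξ (fun ω => ((b ω, c ω), W ω)) ≤
      d * (k * Real.log 2) - Pb q Bd * (t * Real.log 2 - Real.log (d * K)) := by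
    have h1 := CH_le_card h0 hq.sum_one ξ (fun ω => ((b ω, c ω), W ω)) S (by
      intro ω hω
      have hm : ξ ω ∈ T := by
        rw [hT, Fintype.mem_piFinset]
        exact fun i => Finset.mem_range.2 (hξ ω hω i)
      rw [hS]
      show ξ ω ∈ (if b ω = true then _ else _)
      by_cases h : b ω = true
      · rw [if_pos h, Finset.mem_filter]
        refine ⟨hm, ?_⟩
        have hbd : Bd ω := by
          rw [hb] at h
          exact of_decide_eq_true h
        rw [hBd] at hbd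
        have h2 := hrel ω hω hbd.1
        have h3 : |∑ β, ell K β (fun i => (ξ ω i : ℝ) / 2 ^ k) * ((c ω β : ℝ) - G ω β)| ≤
            (K + 1) ^ d * lgC K ^ d := by
          refine (Finset.abs_sum_le_sum_abs _ _).trans ?_
          refine (Finset.sum_le_card_nsmul _ _ (lgC K ^ d) fun β _ => ?_).trans (le_of_eq ?_)
          · rw [abs_mul]
            have h4 := ell_bd (K := K) β (x := fun i => (ξ ω i : ℝ) / 2 ^ k)
              (fun i => by linarith [(hx01 ω hω i).1]) (fun i => by linarith [(hx01 ω hω i).2])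
            have h5 : |(c ω β : ℝ) - G ω β| ≤ 1 := by
              rw [hc]
              show |((⌊G ω β⌋ : ℤ) : ℝ) - G ω β| ≤ 1
              rw [abs_le]
              constructor <;> linarith [Int.floor_le (G ω β), Int.lt_floor_add_one (G ω β)]
            calc _ ≤ lgC K ^ d * 1 := mul_le_mul h4 h5 (abs_nonneg _) (by positivity)
              _ = lgC K ^ d := mul_one _
          · rw [Finset.card_univ, card_grid, nsmul_eq_mul]
            push_cast
            ring
        have h6 : ∑ β, ell K β (fun i => (ξ ω i : ℝ) / 2 ^ k) * (c ω β : ℝ) =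
            ∑ β, ell K β (fun i => (ξ ω i : ℝ) / 2 ^ k) * G ω β +
            ∑ β, ell K β (fun i => (ξ ω i : ℝ) / 2 ^ k) * ((c ω β : ℝ) - G ω β) := by
          rw [← Finset.sum_add_distrib]
          exact Finset.sum_congr rfl fun β _ => by ring
        show |∑ β, ell K β (fun i => (ξ ω i : ℝ) / 2 ^ k) * (c ω β : ℝ)| ≤ B
        rw [h6, hB]
        exact (abs_add_le _ _).trans (add_le_add h2 h3)
      · rw [if_neg h]
        exact hm)
    refine h1.trans ?_
    have h2 : ∀ ω, Real.log ((S ((b ω, c ω), W ω)).card : ℝ) ≤ d * (k * Real.log 2) -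
        (if Bd ω then (1 : ℝ) else 0) * (t * Real.log 2 - Real.log (d * K)) := by
      intro ω
      by_cases h : Bd ω
      · rw [if_pos h, one_mul]
        have hbt : b ω = true := by
          rw [hb]
          exact decide_eq_true h
        have hSc : S ((b ω, c ω), W ω) = T.filter fun ξ : Fin d → ℕ =>
            |∑ β, ell K β (fun i => (ξ i : ℝ) / 2 ^ k) * (c ω β : ℝ)| ≤ B := by
          rw [hS]
          show (if b ω = true then _ else _) = _
          rw [if_pos hbt]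
        rw [hBd] at h
        obtain ⟨-, β, hβ⟩ := h
        have h3 : (2 : ℝ) ^ v - 1 ≤ |(c ω β : ℝ)| := by
          rw [hc]
          show (2 : ℝ) ^ v - 1 ≤ |((⌊G ω β⌋ : ℤ) : ℝ)|
          have h4 : |G ω β| ≤ |((⌊G ω β⌋ : ℤ) : ℝ)| + 1 := by
            have h5 : |G ω β - ((⌊G ω β⌋ : ℤ) : ℝ)| ≤ 1 := by
              rw [abs_le]
              constructor <;> linarith [Int.floor_le (G ω β), Int.lt_floor_add_one (G ω β)]
            have h6 := abs_sub_abs_le_abs_sub (G ω β) ((⌊G ω β⌋ : ℤ) : ℝ)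
            linarith
          linarith
        have h4 := cnt_grid hK ht d (fun β => (c ω β : ℝ)) hB0 ⟨β, h3⟩ hv
        rw [← hT, ← hSc] at h4
        have hd4 : (((S ((b ω, c ω), W ω)).card : ℝ)) * 2 ^ t ≤ d * K * 2 ^ (k * d) := by
          exact_mod_cast h4
        have hR : d * (k * Real.log 2) - (t * Real.log 2 - Real.log (d * K)) =
            Real.log (d * K * 2 ^ (k * d)) - t * Real.log 2 := by
          rw [Real.log_mul (x := (d : ℝ) * K) (y := 2 ^ (k * d)) (by positivity) (by positivity),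
            Real.log_pow]
          push_cast
          ring
        rw [hR]
        rcases Nat.eq_zero_or_pos (S ((b ω, c ω), W ω)).card with h5 | h5
        · rw [h5, Nat.cast_zero, Real.log_zero]
          have h6 : (2 : ℝ) ^ t ≤ d * K * 2 ^ (k * d) := by
            have h7 : (2 : ℝ) ^ t ≤ 2 ^ (k * d) :=
              pow_le_pow_right₀ (by norm_num) (ht.trans (Nat.le_mul_of_pos_right k hd))
            calc (2 : ℝ) ^ t ≤ 1 * 2 ^ (k * d) := by rw [one_mul]; exact h7
              _ ≤ _ := mul_le_mul_of_nonneg_right hdK (by positivity)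
          have h7 := Real.log_le_log (by positivity) h6
          rw [Real.log_pow] at h7
          linarith
        · have h6 : (0 : ℝ) < (S ((b ω, c ω), W ω)).card := by exact_mod_cast h5
          have h2t : (0 : ℝ) < 2 ^ t := by positivity
          have h7 := Real.log_le_log (mul_pos h6 h2t) hd4
          rw [Real.log_mul h6.ne' h2t.ne', Real.log_pow] at h7
          linarith
      · rw [if_neg h, zero_mul, sub_zero]
        have hbt : ¬ b ω = true := by
          rw [hb]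
          exact fun hh => h (of_decide_eq_true hh)
        have hSc : S ((b ω, c ω), W ω) = T := by
          rw [hS]
          show (if b ω = true then _ else _) = _
          rw [if_neg hbt]
        rw [hSc, hTc]
        push_cast
        rw [Real.log_pow]
        push_cast
        exact le_of_eq (by ring)
    refine (Ex_mono h0 fun ω _ => h2 ω).trans (le_of_eq ?_)
    rw [Ex_sub, Ex_const hq.sum_one, Ex_ite]
  have c3 := CH_le_add h0 ξ (fun ω => (b ω, c ω)) W
  linarith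

/-- The form with digits: `u` digits for the size of the relation. -/
theorem read_polyD {q : Ω → ℝ} (hq : IsLaw q) (W : Ω → τ) {K d k u v : ℕ} (hK : 1 ≤ K)
    (hd : 1 ≤ d) (ξ : Ω → Fin d → ℕ) (G : Ω → (Fin d → Fin (K + 1)) → ℝ)
    (Ev : Ω → Prop) {lam e e' : ℝ} (hlam : 0 ≤ lam)
    (hξ : ∀ ω, 0 < q ω → ∀ i, ξ ω i < 2 ^ k)
    (hfull : d * (k * Real.log 2) - e ≤ CH q ξ W)
    (hcell : CH q (fun ω β => ⌊G ω β⌋) W ≤ e')
    (hrel : ∀ ω, 0 < q ω → Ev ω → |∑ β, ell K β (fun i => (ξ ω i : ℝ) / 2 ^ k) * G ω β| ≤ lam)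
    (hu : ((K : ℝ) + 1) ^ d * (lam + (K + 1) ^ d * lgC K ^ d) + 2 ≤ 2 ^ u) (huv : u ≤ v)
    (hvk : v ≤ u + k) :
    Pb q (fun ω => Ev ω ∧ ∃ β, 2 ^ v ≤ |G ω β|) *
      ((((v : ℝ) - u) / (K * d) - 1) * Real.log 2 - Real.log (d * K)) ≤
      e + e' + Real.log 2 := by
  have l2 : 0 < Real.log 2 := Real.log_pos (by norm_num)
  have hC := one_le_lgC K
  have hKd : 1 ≤ K * d := Nat.mul_pos hK hd
  obtain ⟨t, ht⟩ : ∃ t, t = (v - u) / (K * d) := ⟨_, rfl⟩
  have ht1 : t * (K * d) ≤ v - u := by rw [ht]; exact Nat.div_mul_le_self _ _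
  have ht2 : v - u < (t + 1) * (K * d) := by
    rw [ht, add_mul, one_mul, mul_comm ((v - u) / (K * d))]
    exact Nat.lt_mul_div_succ _ hKd |>.trans_eq (by ring)
  have ht3 : t ≤ k := by
    have h1 : t ≤ v - u := le_trans (Nat.le_mul_of_pos_right t hKd) ht1
    omega
  have hB0 : 0 ≤ lam + (K + 1) ^ d * lgC K ^ d := by positivity
  have hv : ((K + 1) * 2 ^ (t * K)) ^ d * (lam + (K + 1) ^ d * lgC K ^ d) < (2 : ℝ) ^ v - 1 := by
    have e1 : ((K + 1) * 2 ^ (t * K)) ^ d * (lam + (K + 1) ^ d * lgC K ^ d) =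
        2 ^ (t * (K * d)) * (((K : ℝ) + 1) ^ d * (lam + (K + 1) ^ d * lgC K ^ d)) := by
      rw [mul_pow, ← pow_mul, mul_assoc t K d]
      ring
    have h1 : (2 : ℝ) ^ (t * (K * d)) * 2 ^ u ≤ 2 ^ v := by
      rw [← pow_add]
      exact pow_le_pow_right₀ (by norm_num) (by omega)
    have h2 : (1 : ℝ) ≤ 2 ^ (t * (K * d)) := one_le_pow₀ (by norm_num)
    have h3 : (2 : ℝ) ^ (t * (K * d)) * (((K : ℝ) + 1) ^ d * (lam + (K + 1) ^ d * lgC K ^ d)) ≤
        2 ^ (t * (K * d)) * (2 ^ u - 2) :=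
      mul_le_mul_of_nonneg_left (by linarith) (by positivity)
    rw [e1]
    linarith
  have key := read_poly hq W hK hd ht3 ξ G Ev hlam hξ hfull hcell hrel hv
  have hP := Pb_nn hq.nonneg (fun ω => Ev ω ∧ ∃ β, 2 ^ v ≤ |G ω β|)
  refine le_trans (mul_le_mul_of_nonneg_left ?_ hP) key
  have h4 : ((v : ℝ) - u) / (K * d) - 1 ≤ t := by
    have h5 : (0 : ℝ) < K * d := by exact_mod_cast hKd
    have h6 : ((v : ℝ) - u) < (t + 1) * (K * d) := by
      have h7 : ((v - u : ℕ) : ℝ) < ((t + 1) * (K * d) : ℕ) := by exact_mod_cast ht2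
      rw [Nat.cast_sub huv] at h7
      push_cast at h7
      exact h7
    have h8 : ((v : ℝ) - u) / (K * d) < t + 1 := by
      rw [div_lt_iff₀ h5]
      exact h6
    linarith
  have := mul_le_mul_of_nonneg_right h4 l2.le
  linarith

end Pool.D2G30
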