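import Pool.Agent.H73.D2.Lag

/-!
# Grid points at which a polynomial is small

`sep_small`: a polynomial of degree at most `K` which is small at `K + 1` separated points is small
near them. `cnt_one`: few points `x / 2 ^ k` at which a polynomial, given by its values at the nodes,
is small. `cnt_grid`: the same in several variables.
-/

set_option autoImplicit false

namespace Pool.D2G30

open Finset

/-- **Small at separated points.** -/
theorem sep_small {K : ℕ} (P : Polynomial ℝ) (hP : P.natDegree ≤ K) (y : Fin (K + 1) → ℝ)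
    {δ B : ℝ} (hδ : 0 < δ) (hy : ∀ i i', i ≠ i' → δ ≤ |y i - y i'|)
    (hPy : ∀ i, |P.eval (y i)| ≤ B) {x : ℝ} (hx : ∀ i, |x - y i| ≤ 1) :
    |P.eval x| ≤ (K + 1) * (B * (1 / δ) ^ K) := by
  classical
  have hB : 0 ≤ B := (abs_nonneg _).trans (hPy 0)
  have hinj : Set.InjOn y (univ : Finset (Fin (K + 1))) := by
    intro a _ b _ h
    by_contra hab
    have h1 := hy a b hab
    rw [h, sub_self, abs_zero] at h1
    linarith
  have hdeg : P.degree < ((univ : Finset (Fin (K + 1))).card : WithBot ℕ) := by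
    rw [Finset.card_univ, Fintype.card_fin]
    refine lt_of_le_of_lt Polynomial.degree_le_natDegree ?_
    exact_mod_cast Nat.lt_succ_of_le hP
  have key := Lagrange.eq_interpolate hinj hdeg
  have h1 := congrArg (Polynomial.eval x) key
  rw [Lagrange.interpolate_apply, Polynomial.eval_finsetSum] at h1
  rw [h1]
  refine (Finset.abs_sum_le_sum_abs _ _).trans ?_
  refine (Finset.sum_le_card_nsmul _ _ (B * (1 / δ) ^ K) fun i _ => ?_).trans (le_of_eq ?_)
  · rw [Polynomial.eval_mul, Polynomial.eval_C, abs_mul]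
    refine mul_le_mul (hPy i) ?_ (abs_nonneg _) hB
    unfold Lagrange.basis
    rw [Polynomial.eval_prod, Finset.abs_prod]
    have h0 : ∀ i' ∈ (univ : Finset (Fin (K + 1))).erase i,
        |Polynomial.eval x (Lagrange.basisDivisor (y i) (y i'))| ≤ 1 / δ := by
      intro i' hi'
      unfold Lagrange.basisDivisor
      rw [Polynomial.eval_mul, Polynomial.eval_C, Polynomial.eval_sub, Polynomial.eval_X,
        Polynomial.eval_C, abs_mul, abs_inv]
      have h2 := hy i i' (Finset.ne_of_mem_erase hi').symm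
      have h3 : |y i - y i'|⁻¹ ≤ 1 / δ := by
        rw [one_div]
        exact inv_anti₀ hδ h2
      calc |y i - y i'|⁻¹ * |x - y i'| ≤ 1 / δ * 1 :=
            mul_le_mul h3 (hx i') (abs_nonneg _) (by positivity)
        _ = 1 / δ := mul_one _
    refine (Finset.prod_le_prod (fun _ _ => abs_nonneg _) h0).trans (le_of_eq ?_)
    rw [Finset.prod_const, card_er]
  · rw [Finset.card_univ, Fintype.card_fin, nsmul_eq_mul]
    push_cast
    ring

/-- The polynomial with given values at the nodes. -/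
theorem lg_poly {K : ℕ} (hK : 1 ≤ K) (a : Fin (K + 1) → ℝ) : ∃ P : Polynomial ℝ,
    P.natDegree ≤ K ∧ (∀ x, P.eval x = ∑ j, lg K j x * a j) ∧
      ∀ j : Fin (K + 1), P.eval (((j : ℕ) : ℝ) / K) = a j := by
  classical
  have hK0 : (K : ℝ) ≠ 0 := by
    have : (1 : ℝ) ≤ K := by exact_mod_cast hK
    linarith
  have hinj : Set.InjOn (fun i : Fin (K + 1) => ((i : ℕ) : ℝ) / K)
      (univ : Finset (Fin (K + 1))) := by
    intro a _ b _ h
    have h1 : ((a : ℕ) : ℝ) / K = ((b : ℕ) : ℝ) / K := h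
    have h2 : ((a : ℕ) : ℝ) = (b : ℕ) := by
      field_simp at h1
      exact h1
    exact Fin.ext (by exact_mod_cast h2)
  refine ⟨Lagrange.interpolate univ (fun i : Fin (K + 1) => ((i : ℕ) : ℝ) / K) a, ?_,
    fun x => ?_, fun j => ?_⟩
  · have h1 := Lagrange.degree_interpolate_lt a hinj
    rw [Finset.card_univ, Fintype.card_fin] at h1
    rw [Polynomial.natDegree_le_iff_coeff_eq_zero]
    intro n hn
    refine Polynomial.coeff_eq_zero_of_degree_lt (h1.trans_le ?_)
    exact_mod_cast hn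
  · rw [Lagrange.interpolate_apply, Polynomial.eval_finsetSum]
    refine Finset.sum_congr rfl fun j _ => ?_
    rw [Polynomial.eval_mul, Polynomial.eval_C, lg_basis hK, mul_comm]
  · exact Lagrange.eval_interpolate_at_node a hinj (Finset.mem_univ j)

/-- Separated elements of a set of natural numbers. -/
theorem sep_pts (Z : Finset ℕ) {K s : ℕ} (h : K * s < Z.card) :
    ∃ u : Fin (K + 1) → ℕ, (∀ i, u i ∈ Z) ∧ ∀ i i', i < i' → u i + s ≤ u i' := by
  classical
  obtain ⟨c, hc⟩ : ∃ c, c = Z.card := ⟨_, rfl⟩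
  obtain ⟨f, hfm, hfs⟩ : ∃ f : Fin c → ℕ, (∀ i, f i ∈ Z) ∧ StrictMono f :=
    ⟨Z.orderEmbOfFin hc.symm, fun i => Finset.orderEmbOfFin_mem Z hc.symm i,
      (Z.orderEmbOfFin hc.symm).strictMono⟩
  rw [← hc] at h
  have hgap : ∀ (n : ℕ) (i j : Fin c), (i : ℕ) + n = j → f i + n ≤ f j := by
    intro n
    induction n with
    | zero =>
      intro i j hij
      have : i = j := Fin.ext (by omega)
      rw [this]
      exact le_rfl
    | succ n ih =>
      intro i j hij
      have hj : (i : ℕ) + n < c := by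
        have := j.2
        omega
      have h1 := ih i ⟨(i : ℕ) + n, hj⟩ rfl
      have h2 : f ⟨(i : ℕ) + n, hj⟩ < f j := hfs (by
        rw [Fin.lt_def]
        show (i : ℕ) + n < j
        omega)
      omega
  have hidx : ∀ i : Fin (K + 1), (i : ℕ) * s < c := fun i =>
    lt_of_le_of_lt (Nat.mul_le_mul_right _ (Nat.lt_succ_iff.1 i.2)) h
  refine ⟨fun i => f ⟨(i : ℕ) * s, hidx i⟩, fun i => hfm _, fun i i' hii => ?_⟩
  have h1 : (i : ℕ) * s + s ≤ (i' : ℕ) * s := by
    have h2 : (i : ℕ) + 1 ≤ i' := hii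
    calc (i : ℕ) * s + s = ((i : ℕ) + 1) * s := by ring
      _ ≤ _ := Nat.mul_le_mul_right _ h2
  obtain ⟨n, hn⟩ := Nat.exists_eq_add_of_le h1
  have h2 := hgap (s + n) ⟨(i : ℕ) * s, hidx i⟩ ⟨(i' : ℕ) * s, hidx i'⟩ (by
    show (i : ℕ) * s + (s + n) = (i' : ℕ) * s
    omega)
  show f ⟨(i : ℕ) * s, hidx i⟩ + s ≤ f ⟨(i' : ℕ) * s, hidx i'⟩
  omega

/-- **One variable.** -/
theorem cnt_one {K k t : ℕ} (hK : 1 ≤ K) (ht : t ≤ k) (a : Fin (K + 1) → ℝ) {A B : ℝ}
    {j : Fin (K + 1)} (hj : A ≤ |a j|) (hAB : (K + 1) * 2 ^ (t * K) * B < A) :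
    ((Finset.range (2 ^ k)).filter fun x : ℕ =>
      |∑ j, lg K j ((x : ℝ) / 2 ^ k) * a j| ≤ B).card * 2 ^ t ≤ K * 2 ^ k := by
  classical
  obtain ⟨Z, hZ⟩ : ∃ Z, Z = (Finset.range (2 ^ k)).filter fun x : ℕ =>
    |∑ j, lg K j ((x : ℝ) / 2 ^ k) * a j| ≤ B := ⟨_, rfl⟩
  rw [← hZ]
  have h2k : 2 ^ k = 2 ^ (k - t) * 2 ^ t := by
    rw [← pow_add]
    congr 1
    omega
  by_contra hcon
  rw [not_le, h2k, ← mul_assoc] at hcon
  have hcard : K * 2 ^ (k - t) < Z.card := lt_of_mul_lt_mul_right hcon (Nat.zero_le _)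
  obtain ⟨u, hu, hus⟩ := sep_pts Z hcard
  have h6 : (2 : ℝ) ^ k = 2 ^ (k - t) * 2 ^ t := by exact_mod_cast h2k
  have hlt : ∀ i i' : Fin (K + 1), i < i' →
      1 / 2 ^ t ≤ (u i' : ℝ) / 2 ^ k - (u i : ℝ) / 2 ^ k := by
    intro i i' hii
    have h4 : (u i : ℝ) + 2 ^ (k - t) ≤ u i' := by exact_mod_cast hus i i' hii
    rw [← sub_div, div_le_div_iff₀ (by positivity) (by positivity), one_mul, h6]
    refine mul_le_mul_of_nonneg_right ?_ (by positivity)
    linarith
  have hZm : ∀ i, u i < 2 ^ k ∧ |∑ j, lg K j ((u i : ℝ) / 2 ^ k) * a j| ≤ B := by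
    intro i
    have h1 := hu i
    rw [hZ, Finset.mem_filter, Finset.mem_range] at h1
    exact h1
  have hy01 : ∀ i, 0 ≤ (u i : ℝ) / 2 ^ k ∧ (u i : ℝ) / 2 ^ k ≤ 1 := by
    intro i
    refine ⟨by positivity, ?_⟩
    rw [div_le_one (by positivity)]
    exact_mod_cast (hZm i).1.le
  obtain ⟨P, hP1, hP2, hP3⟩ := lg_poly hK a
  have hj01 : 0 ≤ ((j : ℕ) : ℝ) / K ∧ ((j : ℕ) : ℝ) / K ≤ 1 := by
    constructor
    · positivity
    · have : (0 : ℝ) < K := by
        have : (1 : ℝ) ≤ K := by exact_mod_cast hK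
        linarith
      rw [div_le_one this]
      exact_mod_cast Nat.lt_succ_iff.1 j.2
  have key := sep_small P hP1 (fun i => (u i : ℝ) / 2 ^ k) (δ := 1 / 2 ^ t) (B := B)
    (by positivity) (fun i i' hii => by
    rcases lt_or_gt_of_ne hii with h | h
    · rw [abs_sub_comm]
      exact (hlt i i' h).trans (le_abs_self _)
    · exact (hlt i' i h).trans (le_abs_self _)) (fun i => by
    rw [hP2]
    exact (hZm i).2) (x := ((j : ℕ) : ℝ) / K) (fun i => by
    rw [abs_le]
    constructor <;> linarith [(hy01 i).1, (hy01 i).2, hj01.1, hj01.2])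
  rw [hP3 j, one_div_one_div, ← pow_mul] at key
  have : (K + 1 : ℝ) * (B * 2 ^ (t * K)) = (K + 1) * 2 ^ (t * K) * B := by ring
  rw [this] at key
  linarith

/-- The sum over the grid. -/
theorem sum_grid {K d : ℕ} (φ : (Fin (d + 1) → Fin (K + 1)) → ℝ) :
    ∑ β, φ β = ∑ j : Fin (K + 1), ∑ β' : Fin d → Fin (K + 1), φ (Fin.cons j β') := by
  rw [← Fintype.sum_prod_type' (f := fun (j : Fin (K + 1)) (β' : Fin d → Fin (K + 1)) =>
    φ (Fin.cons j β'))]
  exact (Fintype.sum_equiv (Fin.consEquiv (fun _ => Fin (K + 1))) _ _ (fun x => rfl)).symm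

theorem ell_cons {K d : ℕ} (j : Fin (K + 1)) (β' : Fin d → Fin (K + 1)) (x : Fin (d + 1) → ℝ) :
    ell K (Fin.cons j β') x = lg K j (x 0) * ell K β' (fun i => x i.succ) := by
  unfold ell
  rw [Fin.prod_univ_succ]
  rfl

/-- **Several variables.** -/
theorem cnt_grid {K k t : ℕ} (hK : 1 ≤ K) (ht : t ≤ k) : ∀ (d : ℕ)
    (g : (Fin d → Fin (K + 1)) → ℝ) {A B : ℝ}, 0 ≤ B → (∃ β, A ≤ |g β|) →
    ((K + 1) * 2 ^ (t * K)) ^ d * B < A →
    ((Fintype.piFinset fun _ : Fin d => Finset.range (2 ^ k)).filter fun ξ : Fin d → ℕ =>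
      |∑ β, ell K β (fun i => (ξ i : ℝ) / 2 ^ k) * g β| ≤ B).card * 2 ^ t ≤
      d * K * 2 ^ (k * d) := by
  classical
  intro d
  induction d with
  | zero =>
    rintro g A B hB ⟨β, hβ⟩ hAB
    rw [pow_zero, one_mul] at hAB
    have h0 : ((Fintype.piFinset fun _ : Fin 0 => Finset.range (2 ^ k)).filter
        fun ξ : Fin 0 → ℕ =>
        |∑ β, ell K β (fun i => (ξ i : ℝ) / 2 ^ k) * g β| ≤ B) = ∅ := by
      refine Finset.filter_eq_empty_iff.2 fun ξ _ h => ?_
      have h1 : ∑ β : Fin 0 → Fin (K + 1), ell K β (fun i => (ξ i : ℝ) / 2 ^ k) * g β = g β := by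
        rw [Fintype.sum_eq_single β (fun β' hβ' => absurd (Subsingleton.elim _ _) hβ')]
        unfold ell
        rw [Finset.prod_of_isEmpty, one_mul]
      rw [h1] at h
      linarith
    rw [h0]
    simp
  | succ d ih =>
    rintro g A B hB ⟨β, hβ⟩ hAB
    obtain ⟨R, hR⟩ : ∃ R : ℝ, R = (K + 1) * 2 ^ (t * K) := ⟨_, rfl⟩
    have hR0 : 0 ≤ R := by rw [hR]; positivity
    rw [← hR] at hAB ih
    obtain ⟨Q, hQ⟩ : ∃ Q : Fin (K + 1) → (Fin d → ℕ) → ℝ, Q = fun j ξ' =>
      ∑ β' : Fin d → Fin (K + 1), ell K β' (fun i => (ξ' i : ℝ) / 2 ^ k) * g (Fin.cons j β') :=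
      ⟨_, rfl⟩
    have hsum : ∀ ξ : Fin (d + 1) → ℕ,
        ∑ β, ell K β (fun i => (ξ i : ℝ) / 2 ^ k) * g β =
          ∑ j, lg K j ((ξ 0 : ℝ) / 2 ^ k) * Q j (fun i => ξ i.succ) := by
      intro ξ
      rw [sum_grid]
      refine Finset.sum_congr rfl fun j _ => ?_
      rw [hQ]
      show _ = lg K j ((ξ 0 : ℝ) / 2 ^ k) * ∑ β' : Fin d → Fin (K + 1),
        ell K β' (fun i => (ξ i.succ : ℝ) / 2 ^ k) * g (Fin.cons j β')
      rw [Finset.mul_sum]
      refine Finset.sum_congr rfl fun β' _ => ?_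
      rw [ell_cons]
      ring
    obtain ⟨Z, hZ⟩ : ∃ Z, Z = (Fintype.piFinset fun _ : Fin (d + 1) =>
      Finset.range (2 ^ k)).filter fun ξ : Fin (d + 1) → ℕ =>
      |∑ β, ell K β (fun i => (ξ i : ℝ) / 2 ^ k) * g β| ≤ B := ⟨_, rfl⟩
    obtain ⟨T, hT⟩ : ∃ T, T = Fintype.piFinset fun _ : Fin d => Finset.range (2 ^ k) := ⟨_, rfl⟩
    obtain ⟨T', hT'⟩ : ∃ T', T' = T.filter fun ξ' : Fin d → ℕ => |Q (β 0) ξ'| ≤ R * B := ⟨_, rfl⟩
    have hTc : T.card = 2 ^ (k * d) := by
      rw [hT, Fintype.card_piFinset]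
      simp only [Finset.card_range, Finset.prod_const, Finset.card_univ, Fintype.card_fin]
      rw [← pow_mul]
    have hT'c : T'.card * 2 ^ t ≤ d * K * 2 ^ (k * d) := by
      have h1 := ih (fun β' => g (Fin.cons (β 0) β')) (A := A) (B := R * B) (by positivity)
        ⟨fun i => β i.succ, by
          have : (Fin.cons (β 0) (fun i : Fin d => β i.succ) : Fin (d + 1) → Fin (K + 1)) = β :=
            Fin.cons_self_tail β
          rw [this]
          exact hβ⟩ (by
          calc R ^ d * (R * B) = R ^ (d + 1) * B := by ring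
            _ < A := hAB)
      rw [hT', hT, hQ]
      exact h1
    have hmap : ∀ ξ ∈ Z, (fun i : Fin d => ξ i.succ) ∈ T := by
      intro ξ hξ
      rw [hZ, Finset.mem_filter, Fintype.mem_piFinset] at hξ
      rw [hT, Fintype.mem_piFinset]
      exact fun i => hξ.1 i.succ
    have hfib : ∀ ξ' ∈ T, (Z.filter fun ξ => (fun i : Fin d => ξ i.succ) = ξ').card * 2 ^ t ≤
        K * 2 ^ k + (if ξ' ∈ T' then 2 ^ k * 2 ^ t else 0) := by
      intro ξ' hξ'
      have hinj : (Z.filter fun ξ => (fun i : Fin d => ξ i.succ) = ξ').card ≤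
          ((Finset.range (2 ^ k)).filter fun x : ℕ =>
            |∑ j, lg K j ((x : ℝ) / 2 ^ k) * Q j ξ'| ≤ B).card := by
        refine Finset.card_le_card_of_injOn (fun ξ => ξ 0) (fun ξ hξ => ?_) ?_
        · rw [Finset.mem_coe, Finset.mem_filter] at hξ
          obtain ⟨h1, h2⟩ := hξ
          rw [hZ, Finset.mem_filter, Fintype.mem_piFinset] at h1
          rw [Finset.mem_coe, Finset.mem_filter]
          refine ⟨h1.1 0, ?_⟩
          have h3 := h1.2
          rw [hsum ξ, h2] at h3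
          exact h3
        · intro ξ hξ η hη h
          rw [Finset.mem_coe, Finset.mem_filter] at hξ hη
          have h1 : (fun i : Fin d => ξ i.succ) = fun i : Fin d => η i.succ :=
            hξ.2.trans hη.2.symm
          funext i
          refine Fin.cases h (fun i => congrFun h1 i) i
      by_cases hm : ξ' ∈ T'
      · rw [if_pos hm]
        have h1 : ((Finset.range (2 ^ k)).filter fun x : ℕ =>
            |∑ j, lg K j ((x : ℝ) / 2 ^ k) * Q j ξ'| ≤ B).card ≤ 2 ^ k :=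
          (Finset.card_filter_le _ _).trans (le_of_eq (Finset.card_range _))
        have h2 := Nat.mul_le_mul_right (2 ^ t) (hinj.trans h1)
        omega
      · rw [if_neg hm, add_zero]
        have h1 : R * B < |Q (β 0) ξ'| := by
          by_contra hcon
          rw [not_lt] at hcon
          exact hm (by rw [hT', Finset.mem_filter]; exact ⟨hξ', hcon⟩)
        have h2 := cnt_one hK ht (fun j => Q j ξ') (A := |Q (β 0) ξ'|) (B := B)
          (j := β 0) le_rfl (by rw [← hR]; exact h1)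
        exact (Nat.mul_le_mul_right (2 ^ t) hinj).trans h2
    rw [← hZ, Finset.card_eq_sum_card_fiberwise hmap, Finset.sum_mul]
    refine (Finset.sum_le_sum hfib).trans ?_
    rw [Finset.sum_add_distrib, Finset.sum_const, smul_eq_mul, hTc, ← Finset.sum_filter,
      Finset.sum_const, smul_eq_mul]
    have h1 : (T.filter fun ξ' => ξ' ∈ T').card ≤ T'.card :=
      Finset.card_le_card fun ξ' h => (Finset.mem_filter.1 h).2
    have h2 : (T.filter fun ξ' => ξ' ∈ T').card * (2 ^ k * 2 ^ t) ≤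
        2 ^ k * (d * K * 2 ^ (k * d)) := by
      calc (T.filter fun ξ' => ξ' ∈ T').card * (2 ^ k * 2 ^ t) ≤ T'.card * (2 ^ k * 2 ^ t) :=
            Nat.mul_le_mul_right _ h1
        _ = 2 ^ k * (T'.card * 2 ^ t) := by ring
        _ ≤ _ := Nat.mul_le_mul_left _ hT'c
    calc 2 ^ (k * d) * (K * 2 ^ k) + (T.filter fun ξ' => ξ' ∈ T').card * (2 ^ k * 2 ^ t)
        ≤ 2 ^ (k * d) * (K * 2 ^ k) + 2 ^ k * (d * K * 2 ^ (k * d)) := Nat.add_le_add_left h2 _
      _ = (d + 1) * K * 2 ^ (k * (d + 1)) := by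
          rw [mul_add, mul_one, pow_add]
          ring

end Pool.D2G30
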